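import Pool.Agent.Helper59.MB.Goals1

/-! # Packet MB-NT (MP_49a1ce_an): the Moebius function has mean zero on progressions modulo powers of two -/

set_option autoImplicit false

open MeasureTheory Filter Topology Finset

namespace Pool.Agent.Helper62.MB

open Pool.Agent.Helper59.MB

noncomputable section

/-- the sum over a residue class -/
def Mn (k r N : ℕ) : ℝ := ∑ n ∈ (Icc 1 N).filter (fun n => n % 2 ^ k = r), mu n

/-- mean value zero on a residue class -/
def CC (k r : ℕ) : Prop := ∀ ε : ℝ, 0 < ε → ∃ N₀ : ℕ, ∀ N ≥ N₀, |Mn k r N| ≤ ε * N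

theorem mu_nat (n : ℕ) : mu (n : ℤ) = ((ArithmeticFunction.moebius n : ℤ) : ℝ) := by
  simp [mu]

theorem abs_mu_le (n : ℕ) : |mu (n : ℤ)| ≤ 1 := by
  rw [mu_nat]
  exact_mod_cast ArithmeticFunction.abs_moebius_le_one (n := n)

theorem cc_odd (hA : S_NTA) (hB : S_NTB) (k r : ℕ) (hr : Odd r) (hlt : r < 2 ^ k) : CC k r := by
  obtain ⟨g, hg1, hg2⟩ := hA k r hr hlt
  intro ε hε
  have hsum : ∀ N : ℕ, ∑ n ∈ Icc 1 N, (if n % 2 ^ k = r then mu (n : ℤ) else 0) = Mn k r N := by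
    intro N
    rw [Mn, Finset.sum_filter]
  obtain ⟨N₀, hN₀⟩ := hB (fun n => if n % 2 ^ k = r then mu (n : ℤ) else 0) (fun n => by
    by_cases h : n % 2 ^ k = r
    · simp only [h, if_true]; exact abs_mu_le n
    · simp only [h, if_false, abs_zero]; exact zero_le_one) g hg1 (fun z hz => by
      rw [hg2 z hz]
      refine integral_congr_ae (Filter.Eventually.of_forall fun x => ?_)
      simp only
      rw [hsum]
      rfl) ε hε
  refine ⟨N₀, fun N hN => ?_⟩
  rw [← hsum]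
  exact hN₀ N hN

theorem cc_four (k r : ℕ) (hk : 2 ≤ k) (hr : 4 ∣ r) : CC k r := by
  intro ε hε
  refine ⟨0, fun N _ => ?_⟩
  have h0 : Mn k r N = 0 := by
    refine Finset.sum_eq_zero fun n hn => ?_
    obtain ⟨h1, h2⟩ := Finset.mem_filter.1 hn
    have h4 : 4 ∣ 2 ^ k := by
      obtain ⟨j, rfl⟩ := Nat.exists_eq_add_of_le hk
      rw [pow_add]
      exact dvd_mul_right _ _
    have h3 : 4 ∣ n := (Nat.dvd_mod_iff h4).1 (h2 ▸ hr)
    have h5 : ¬ Squarefree n := by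
      intro hs
      obtain ⟨j, rfl⟩ := h3
      have := hs 2 ⟨j, by ring⟩
      rw [Nat.isUnit_iff] at this
      omega
    rw [mu_nat, ArithmeticFunction.moebius_eq_zero_of_not_squarefree h5]
    simp
  rw [h0, abs_zero]
  positivity

theorem mn_double (k r N : ℕ) (hr : Odd r) : Mn (k + 1) (2 * r) N = - Mn k r (N / 2) ∨ k = 0 := by
  by_cases hk0 : k = 0
  · exact Or.inr hk0
  left
  rw [Mn, Mn, ← Finset.sum_neg_distrib]
  refine (Finset.sum_nbij' (fun n => 2 * n) (fun n => n / 2) ?_ ?_ ?_ ?_ ?_).symm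
  · intro n hn
    simp only [Finset.mem_filter, Finset.mem_Icc] at hn ⊢
    obtain ⟨⟨h1, h2⟩, h3⟩ := hn
    refine ⟨⟨by omega, by omega⟩, ?_⟩
    rw [pow_succ', Nat.mul_mod_mul_left, h3]
  · intro n hn
    simp only [Finset.mem_filter, Finset.mem_Icc] at hn ⊢
    obtain ⟨⟨h1, h2⟩, h3⟩ := hn
    have h4 : 2 ∣ n := by
      have h5 : 2 ∣ 2 ^ (k + 1) := dvd_pow_self 2 (Nat.succ_ne_zero k)
      exact (Nat.dvd_mod_iff h5).1 (h3 ▸ dvd_mul_right 2 r)
    obtain ⟨j, rfl⟩ := h4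
    rw [pow_succ', Nat.mul_mod_mul_left] at h3
    rw [Nat.mul_div_cancel_left _ (by norm_num)]
    exact ⟨⟨by omega, by omega⟩, by omega⟩
  · intro n _
    exact Nat.mul_div_cancel_left _ (by norm_num)
  · intro n hn
    simp only [Finset.mem_filter, Finset.mem_Icc] at hn
    obtain ⟨⟨h1, h2⟩, h3⟩ := hn
    have h4 : 2 ∣ n := by
      have h5 : 2 ∣ 2 ^ (k + 1) := dvd_pow_self 2 (Nat.succ_ne_zero k)
      exact (Nat.dvd_mod_iff h5).1 (h3 ▸ dvd_mul_right 2 r)
    exact Nat.mul_div_cancel' h4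
  · intro n hn
    simp only [Finset.mem_filter, Finset.mem_Icc] at hn
    obtain ⟨⟨h1, h2⟩, h3⟩ := hn
    have hodd : Odd n := by
      have h5 : 2 ∣ 2 ^ k := dvd_pow_self 2 hk0
      rw [← Nat.not_even_iff_odd, even_iff_two_dvd]
      intro h
      have h6 := (Nat.dvd_mod_iff h5).2 h
      rw [h3] at h6
      exact (Nat.not_even_iff_odd.2 hr) (even_iff_two_dvd.2 h6)
    have hcop : Nat.Coprime 2 n := (Nat.coprime_two_left).2 hodd
    rw [mu_nat, mu_nat, ArithmeticFunction.isMultiplicative_moebius.map_mul_of_coprime hcop,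
      ArithmeticFunction.moebius_apply_prime Nat.prime_two]
    push_cast
    ring

theorem cc_two (hA : S_NTA) (hB : S_NTB) (k r : ℕ) (hk : 2 ≤ k) (hr : Odd r)
    (hlt : 2 * r < 2 ^ k) : CC k (2 * r) := by
  obtain ⟨j, rfl⟩ : ∃ j, k = j + 1 := ⟨k - 1, by omega⟩
  have h1 : r < 2 ^ j := by
    rw [pow_succ'] at hlt
    omega
  intro ε hε
  obtain ⟨N₀, hN₀⟩ := cc_odd hA hB j r hr h1 ε hε
  refine ⟨2 * N₀, fun N hN => ?_⟩
  rcases mn_double j r N hr with h | h
  · rw [h, abs_neg]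
    refine (hN₀ (N / 2) (by omega)).trans ?_
    refine mul_le_mul_of_nonneg_left ?_ hε.le
    exact_mod_cast Nat.div_le_self N 2
  · omega

theorem mn_refine (k r N : ℕ) (hr : r < 2 ^ k) :
    Mn k r N = Mn (k + 1) r N + Mn (k + 1) (r + 2 ^ k) N := by
  rw [Mn, Mn, Mn, ← Finset.sum_union]
  · refine Finset.sum_congr ?_ fun _ _ => rfl
    ext n
    simp only [Finset.mem_filter, Finset.mem_union, Finset.mem_Icc]
    have h1 : n % 2 ^ (k + 1) = n % 2 ^ k + 2 ^ k * (n / 2 ^ k % 2) := Nat.mod_pow_succ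
    have h2 : n / 2 ^ k % 2 < 2 := Nat.mod_lt _ (by norm_num)
    have h3 : n % 2 ^ k < 2 ^ k := Nat.mod_lt _ (by positivity)
    constructor
    · rintro ⟨h, h'⟩
      rw [h1, h']
      have h4 : n / 2 ^ k % 2 = 0 ∨ n / 2 ^ k % 2 = 1 := by omega
      rcases h4 with h4 | h4
      · left; exact ⟨h, by rw [h4]; simp⟩
      · right; exact ⟨h, by rw [h4]; simp⟩
    · rintro (⟨h, h'⟩ | ⟨h, h'⟩)
      · refine ⟨h, ?_⟩
        rw [h1] at h'
        have h4 : n / 2 ^ k % 2 = 0 ∨ n / 2 ^ k % 2 = 1 := by omega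
        rcases h4 with h4 | h4
        · rw [h4] at h'; simpa using h'
        · rw [h4] at h'; omega
      · refine ⟨h, ?_⟩
        rw [h1] at h'
        have h4 : n / 2 ^ k % 2 = 0 ∨ n / 2 ^ k % 2 = 1 := by omega
        rcases h4 with h4 | h4
        · rw [h4] at h'; omega
        · rw [h4] at h'; omega
  · rw [Finset.disjoint_left]
    intro n h1 h2
    rw [Finset.mem_filter] at h1 h2
    have : 0 < 2 ^ k := by positivity
    omega

theorem cc_refine (k r : ℕ) (hr : r < 2 ^ k) (h1 : CC (k + 1) r) (h2 : CC (k + 1) (r + 2 ^ k)) :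
    CC k r := by
  intro ε hε
  obtain ⟨N₁, hN₁⟩ := h1 (ε / 2) (by positivity)
  obtain ⟨N₂, hN₂⟩ := h2 (ε / 2) (by positivity)
  refine ⟨max N₁ N₂, fun N hN => ?_⟩
  rw [mn_refine k r N hr]
  have h3 := hN₁ N ((le_max_left _ _).trans hN)
  have h4 := hN₂ N ((le_max_right _ _).trans hN)
  refine (abs_add_le _ _).trans ?_
  linarith

theorem cc_all (hA : S_NTA) (hB : S_NTB) (k r : ℕ) (hk : 2 ≤ k) (hlt : r < 2 ^ k) : CC k r := by
  rcases Nat.even_or_odd r with h | h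
  · obtain ⟨s, hs⟩ := h
    rcases Nat.even_or_odd s with h' | h'
    · obtain ⟨t, ht⟩ := h'
      exact cc_four k r hk ⟨t, by omega⟩
    · have : r = 2 * s := by omega
      rw [this]
      exact cc_two hA hB k s hk h' (this ▸ hlt)
  · exact cc_odd hA hB k r h hlt

theorem cc_any (hA : S_NTA) (hB : S_NTB) (k r : ℕ) (hlt : r < 2 ^ k) : CC k r := by
  have h1 : ∀ r < 2 ^ 1, CC 1 r := fun r hr =>
    cc_refine 1 r hr (cc_all hA hB 2 r le_rfl (by omega)) (cc_all hA hB 2 _ le_rfl (by omega))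
  match k, hlt with
  | 0, hlt => exact cc_refine 0 r hlt (h1 r (by omega)) (h1 _ (by omega))
  | 1, hlt => exact h1 r hlt
  | k + 2, hlt => exact cc_all hA hB (k + 2) r (by omega) hlt

theorem t_NT (hNTA : S_NTA) (hNTB : S_NTB) : S_NT := by
  intro k ε hε
  have h : ∀ r : ℕ, ∃ N₀ : ℕ, r < 2 ^ k → ∀ N ≥ N₀, |Mn k r N| ≤ ε * N := by
    intro r
    by_cases hr : r < 2 ^ k
    · obtain ⟨N₀, hN₀⟩ := cc_any hNTA hNTB k r hr ε hε
      exact ⟨N₀, fun _ => hN₀⟩
    · exact ⟨0, fun h => absurd h hr⟩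
  choose f hf using h
  refine ⟨(Finset.range (2 ^ k)).sup f, fun N hN r => ?_⟩
  by_cases hr : r < 2 ^ k
  · exact hf r hr N ((Finset.le_sup (f := f) (Finset.mem_range.2 hr)).trans hN)
  · have h0 : (Icc 1 N).filter (fun n => n % 2 ^ k = r) = ∅ := by
      rw [Finset.filter_eq_empty_iff]
      intro n _ hn
      have : n % 2 ^ k < 2 ^ k := Nat.mod_lt _ (by positivity)
      omega
    rw [h0, Finset.sum_empty, abs_zero]
    positivity

end

end Pool.Agent.Helper62.MB
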