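import Pool.Agent.Helper70.MB.Goals

open MeasureTheory Set Metric
open scoped ENNReal FourierTransform Topology ContDiff
open Pool.Agent.Results.MP_91ee6f_gt
open Pool.Agent.Helper70.MB

namespace Pool.Agent.Helper62.MB

lemma tl_nonneg {n : ℕ} (τ : Measure (En n)) (x₀ : En n) (ρ : ℝ) (y : En n) :
    0 ≤ tl τ x₀ ρ y := by
  unfold tl
  refine integral_nonneg fun x => ?_
  exact mul_nonneg (kap_nonneg _) (mul_nonneg (by linarith [cut_le_one x₀ ρ x]) (abs_nonneg _))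

theorem stepB : SCAL → KEYF → BDD → FK → STEPB := by
  intro hS hK _ _ n hn
  obtain ⟨C₁, hC₁, hS⟩ := hS n hn
  obtain ⟨C₂, hC₂, hK⟩ := hK n hn
  refine ⟨C₂ + C₁ * (16 * 4 ^ (2 * n)), by positivity, ?_⟩
  intro X τ hKT x₀ ρ hρ hball htl
  have := hKT.fin
  obtain ⟨hAu, hrep⟩ := hK τ hKT.fin x₀ ρ hρ
  have hρ4 : 0 < ρ / 4 := by positivity
  set u : En n → ℝ := fun x => cut x₀ ρ x * gg τ x with hu
  have h1 := (hS x₀ (ρ / 4) hρ4).1
  obtain ⟨hA1, -, hcomm⟩ := h1 u hAu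
  obtain ⟨hA2, -, -⟩ := h1 _ hA1
  -- `χ u = χ g`
  have hsupp : ∀ x, cut x₀ (ρ / 4) x ≠ 0 → ‖x - x₀‖ ≤ ρ / 2 := by
    intro x hx
    by_contra hlt
    push Not at hlt
    exact hx (cut_zero hρ4 (by linarith))
  have hχu : ∀ x, cut x₀ (ρ / 4) x * u x = cut x₀ (ρ / 4) x * gg τ x := by
    intro x
    by_cases hx : cut x₀ (ρ / 4) x = 0
    · rw [hx]; ring
    · have : cut x₀ ρ x = 1 := cut_one hρ (by have := hsupp x hx; linarith)
      simp only [hu, this, one_mul]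
  set h : En n → ℝ := fun x => cut x₀ (ρ / 4) x * (cut x₀ (ρ / 4) x * u x) with hh
  have hhx : ∀ x, h x = cut x₀ (ρ / 4) x ^ 2 * gg τ x := by
    intro x
    simp only [hh, hχu]; ring
  have hgpos : ∀ x, ‖x - x₀‖ ≤ ρ / 2 → 0 ≤ gg τ x := by
    intro x hx
    have := hKT.ge x (hball (by rw [mem_closedBall, dist_eq_norm]; exact hx))
    unfold gg; linarith
  have hhabs : ∀ x, cut x₀ (ρ / 4) x ^ 2 * |gg τ x| = h x := by
    intro x
    rw [hhx]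
    by_cases hx : cut x₀ (ρ / 4) x = 0
    · rw [hx]; ring
    · rw [abs_of_nonneg (hgpos x (hsupp x hx))]
  have hh0 : ∀ x, 0 ≤ h x := fun x => by rw [← hhabs]; positivity
  have hhsupp : ∀ y, h y ≠ 0 → ‖y - x₀‖ ≤ ρ / 2 := by
    intro y hy
    refine hsupp y fun h0 => hy ?_
    simp only [hh, h0, zero_mul]
  have hint : Integrable h := hA2.2.1
  -- the integral against `τ`
  have hτ : ∫ x, h x ∂τ = 0 := by
    have : h =ᵐ[τ] 0 := by
      have hsup : ∀ᵐ x ∂τ, x ∈ τ.support := Measure.support_mem_ae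
      filter_upwards [hsup] with x hx
      rw [hhx]
      have := hKT.eq x hx
      simp only [gg, this, sub_self, mul_zero, Pi.zero_apply]
    rw [integral_congr_ae this]; simp
  have hkey := (hrep h hA2 hhsupp).1
  rw [hτ, mul_zero, zero_sub, sub_neg_eq_add] at hkey
  have htlint : C₂ * ∫ y, |h y| * tl τ x₀ ρ y ≤ (1 / 2) * ∫ y, h y := by
    rw [← integral_const_mul, ← integral_const_mul]
    refine integral_mono_of_nonneg ?_ (hint.const_mul _) ?_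
    · exact Filter.Eventually.of_forall fun y =>
        mul_nonneg hC₂.le (mul_nonneg (abs_nonneg _) (tl_nonneg _ _ _ _))
    · refine Filter.Eventually.of_forall fun y => ?_
      show C₂ * (|h y| * tl τ x₀ ρ y) ≤ 1 / 2 * h y
      by_cases hy : h y = 0
      · rw [hy]; simp
      · have h2 := htl y (hhsupp y hy)
        have h3 : C₂ * tl τ x₀ ρ y ≤ 1 / 2 := by
          refine le_trans ?_ h2
          refine mul_le_mul_of_nonneg_right ?_ (tl_nonneg _ _ _ _)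
          have : 0 ≤ C₁ * (16 * 4 ^ (2 * n)) := by positivity
          linarith
        rw [abs_of_nonneg (hh0 y)]
        calc C₂ * (h y * tl τ x₀ ρ y) = h y * (C₂ * tl τ x₀ ρ y) := by ring
          _ ≤ h y * (1 / 2) := mul_le_mul_of_nonneg_left h3 (hh0 y)
          _ = 1 / 2 * h y := by ring
  have hpair : 2 * pair h u ≤ -∫ x, h x := by
    have := abs_le.1 hkey
    linarith [this.2]
  -- assemble
  have hfun : (fun x => cut x₀ (ρ / 4) x * gg τ x) = fun x => cut x₀ (ρ / 4) x * u x := by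
    ext x; rw [hχu]
  have hfun2 : (fun x => cut x₀ (ρ / 4) x ^ 2 * |gg τ x|) = h := by
    ext x; exact hhabs x
  rw [hfun, hfun2]
  have hN : 0 ≤ NN (sx n - 1) u := NN_nonneg _ _
  have hfac : ((ρ / 4)⁻¹ ^ 2 * (max 1 (ρ / 4)⁻¹) ^ (2 * n)) ≤
      (16 * 4 ^ (2 * n)) * (ρ⁻¹ ^ 2 * (max 1 ρ⁻¹) ^ (2 * n)) := by
    have e1 : (ρ / 4)⁻¹ = 4 * ρ⁻¹ := by field_simp
    have hm : max 1 (4 * ρ⁻¹) ≤ 4 * max 1 ρ⁻¹ := by
      refine max_le ?_ ?_
      · linarith [le_max_left 1 ρ⁻¹]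
      · linarith [le_max_right 1 ρ⁻¹]
    rw [e1]
    have hρi : 0 < ρ⁻¹ := by positivity
    have h5 : (max 1 (4 * ρ⁻¹)) ^ (2 * n) ≤ (4 * max 1 ρ⁻¹) ^ (2 * n) :=
      pow_le_pow_left₀ (le_trans zero_le_one (le_max_left _ _)) hm _
    calc (4 * ρ⁻¹) ^ 2 * (max 1 (4 * ρ⁻¹)) ^ (2 * n)
        ≤ (4 * ρ⁻¹) ^ 2 * (4 * max 1 ρ⁻¹) ^ (2 * n) :=
          mul_le_mul_of_nonneg_left h5 (by positivity)
      _ = (16 * 4 ^ (2 * n)) * (ρ⁻¹ ^ 2 * (max 1 ρ⁻¹) ^ (2 * n)) := by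
          rw [mul_pow, mul_pow]; ring
  have hfac0 : 0 ≤ ρ⁻¹ ^ 2 * (max 1 ρ⁻¹) ^ (2 * n) := by positivity
  have hfin : C₁ * ((ρ / 4)⁻¹ ^ 2 * (max 1 (ρ / 4)⁻¹) ^ (2 * n)) * NN (sx n - 1) u ≤
      (C₂ + C₁ * (16 * 4 ^ (2 * n))) * (ρ⁻¹ ^ 2 * (max 1 ρ⁻¹) ^ (2 * n)) * NN (sx n - 1) u := by
    refine mul_le_mul_of_nonneg_right ?_ hN
    have h6 := mul_le_mul_of_nonneg_left hfac hC₁.le
    have h7 : 0 ≤ C₂ * (ρ⁻¹ ^ 2 * (max 1 ρ⁻¹) ^ (2 * n)) := mul_nonneg hC₂.le hfac0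
    nlinarith [h6, h7]
  linarith [hcomm, hpair, hfin]

end Pool.Agent.Helper62.MB
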